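import Pool.Agent.H26.ES.Targets

/-!
# PRP: the numbers: one good prime (row PRP of est_modules; helper78)

Page: H26_E21_STAR.md. The constants: `c₁ = 1 / (2 * 8 ^ K)`, `lam = 32 * 8 ^ K * CM * e ^ H`,
`nu = C e ^ (C H)`, `tau = e ^ (-C H) / C`.
-/

set_option autoImplicit false

open Finset MeasureTheory Pool.Agent.H24.CL Pool.Agent.H24.LV Pool.Agent.H26.ES

namespace Pool.Agent.H78.EST

/-! ## Measurability -/

theorem prp_cP {k : ℕ} (n : ℕ) : Continuous (fun a : X k => P a n) := by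
  unfold P
  exact continuous_finsetSum _ fun i _ => (continuous_apply i).nsmul _

theorem prp_cu {k : ℕ} (N : ℕ) : Continuous (fun a : X k => u N a) := by
  have h : Continuous (fun a : X k => f N a) := by
    unfold f
    refine continuous_finsetSum _ fun n _ => ?_
    unfold e
    exact continuous_subtype_val.comp (AddCircle.continuous_toCircle.comp (prp_cP n))
  unfold u
  exact h.div_const _

theorem prp_cphi {k : ℕ} (q b : ℕ) : Continuous (fun a : X k => phi q b a) := by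
  refine continuous_pi fun i => ?_
  have h : (fun a : X k => phi q b a i) = fun a : X k => ∑ j : Fin k,
      (Nat.choose (j.val + 1) (i.val + 1) * b ^ (j.val - i.val) * q ^ (i.val + 1)) • a j := rfl
  rw [h]
  exact continuous_finsetSum _ fun j _ => (continuous_apply j).nsmul _

theorem prp_cVD {k : ℕ} (D N : ℕ) : Continuous (fun a : X k => VD D N a) := by
  unfold VD
  refine continuous_const.mul (continuous_finsetSum _ fun x _ => ?_)
  exact (((prp_cu N).comp (prp_cphi D x)).norm).pow 2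

theorem prp_mu {k : ℕ} (N : ℕ) (t : ℝ) : MeasurableSet {a : X k | t ≤ ‖u N a‖} :=
  (isClosed_le continuous_const (prp_cu N).norm).measurableSet

/-! ## Numbers -/

theorem prp_t {M : ℝ} (hM : 1 ≤ M) : (M ^ (-(1 / 2 : ℝ))) ^ 2 * M = 1 := by
  have h0 : 0 < M := by linarith
  rw [← Real.rpow_natCast, ← Real.rpow_mul h0.le]
  norm_num
  rw [Real.rpow_neg_one]
  exact inv_mul_cancel₀ h0.ne'

theorem prp_KN {k : ℕ} (hk : 3 ≤ k) : k + 1 ≤ KN k := by
  unfold KN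
  rw [Nat.le_div_iff_mul_le (by norm_num)]
  nlinarith

theorem prp_h1 {C H : ℝ} (hC : 1 ≤ C) (hH : 0 ≤ H) : -C * H ≤ -H := by nlinarith

theorem prp_h2 {C C' H : ℝ} (hC : C ≤ C') (hH : 0 ≤ H) : -C' * H ≤ -C * H := by nlinarith

theorem prp_h3 {Y a p : ℝ} (h : Y ≤ a) (ha : 0 ≤ a) (hp : 4 ≤ p) : Y ≤ p * a / 4 := by nlinarith

theorem prp_h4 {Y a p : ℝ} (h : a ≤ Y) (ha : 0 ≤ a) (hp : 0 ≤ p) : p * a / 4 ≤ Y * p := by
  nlinarith

theorem prp_h5 {a b : ℝ} (ha : 1 ≤ a) (hb : 1 ≤ b) : 1 ≤ 32 * a * b := by nlinarith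

theorem prp_C {a b : ℝ} (k : ℕ) (_hk : (0 : ℝ) ≤ k) (ha : 0 ≤ a) (hb : 0 ≤ b) :
    ∃ C : ℝ, 8 ≤ C ∧ (k : ℝ) ≤ C ∧ a ≤ C ∧ b ≤ C :=
  ⟨8 + k + a + b, by linarith, by linarith, by linarith, by linarith⟩

theorem prp_C' {a b c d e f g : ℝ} (k : ℕ) (_hk : (0 : ℝ) ≤ k) (ha : 0 ≤ a) (hb : 0 ≤ b)
    (hc : 0 ≤ c) (hd : 0 ≤ d) (he : 0 ≤ e) (hf : 0 ≤ f) (hg : 0 ≤ g) :
    ∃ C : ℝ, a ≤ C ∧ b ≤ C ∧ c ≤ C ∧ d ≤ C ∧ e ≤ C ∧ f ≤ C ∧ g ≤ C :=
  ⟨a + b + c + d + e + f + g, by linarith, by linarith, by linarith, by linarith, by linarith,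
    by linarith, by linarith⟩

theorem prp_n2 {g Z E vS vA vE x : ℝ} (hg : 1 ≤ g) (hZ : 0 ≤ Z) (h1 : E ≤ 2 * g * (Z * vS))
    (h2 : vS ≤ vA + vE) (h3 : Z * vE ≤ x) (h4 : 4 * g * x ≤ E) : E ≤ 4 * g * (Z * vA) := by
  have h5 : 2 * g * (Z * vS) ≤ 2 * g * (Z * (vA + vE)) := by gcongr
  have h6 : 2 * g * (Z * vE) ≤ 2 * g * x := by gcongr
  have h7 : 2 * g * (Z * (vA + vE)) = 2 * g * (Z * vA) + 2 * g * (Z * vE) := by ring
  linarith

theorem prp_n3 {g Z E c vS vA vB y : ℝ} (hg : 1 ≤ g) (hZ : 0 ≤ Z) (h1 : c ≤ 4 * g * (Z * vS))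
    (h2 : vS ≤ vA + vB) (h3 : Z * vB ≤ y) (h4 : 4 * g * y ≤ E / 4) :
    c - E / 4 ≤ 4 * g * (Z * vA) := by
  have h5 : 4 * g * (Z * vS) ≤ 4 * g * (Z * (vA + vB)) := by gcongr
  have h6 : 4 * g * (Z * vB) ≤ 4 * g * y := by gcongr
  have h7 : 4 * g * (Z * (vA + vB)) = 4 * g * (Z * vA) + 4 * g * (Z * vB) := by ring
  linarith

theorem prp_n4 {g c a b E : ℝ} (ha : 32 * g * c * a ≤ E) (hb : 32 * g * c * b ≤ E) :
    4 * g * (c * (a + b)) ≤ E / 4 := by
  have h : 4 * g * (c * (a + b)) = (32 * g * c * a + 32 * g * c * b) / 8 := by ring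
  rw [h]
  linarith

/-- the mass of the alive points of level `N` from that of level `N₁` -/
theorem prp_s1 {K : ℕ} (hK : 1 ≤ K) {M E w N N1 v v1 CP t1 t : ℝ} (hE1 : E ≤ 1)
    (hw : 0 ≤ w) (hwE : (2 * CP + 2) * w ≤ E) (hCP : 1 ≤ CP) (hN : 0 < N) (hN1 : N ≤ N1)
    (hNw : N1 - N ≤ w * N1) (hv : 0 ≤ v) (ht : 0 < t) (ht1 : t1 = 2 * t) (htM : t1 ^ 2 * M = 1)
    (h1 : M ^ K * E ≤ N1 ^ K * v1)
    (hPT : N1 ^ K * t1 ^ (2 * K) * v1 ≤ N1 ^ K * t1 ^ (2 * K) * v + CP * w ^ K) :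
    E ≤ 2 * 8 ^ K * (N ^ K * t ^ (2 * K) * v) := by
  have ht10 : 0 < t1 := by rw [ht1]; linarith
  have hw2 : w ≤ 1 / 2 := by nlinarith
  have hwK : w ^ K ≤ w := by
    calc w ^ K ≤ w ^ 1 := pow_le_pow_of_le_one hw (by linarith) hK
      _ = w := pow_one w
  have hCw : CP * w ^ K ≤ E / 2 := by
    have : CP * w ^ K ≤ CP * w := mul_le_mul_of_nonneg_left hwK (by linarith)
    nlinarith
  have h2 : E ≤ N1 ^ K * t1 ^ (2 * K) * v1 := by
    have h3 : t1 ^ (2 * K) * M ^ K = 1 := by rw [pow_mul, ← mul_pow, htM, one_pow]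
    calc E = t1 ^ (2 * K) * (M ^ K * E) := by rw [← mul_assoc, h3, one_mul]
      _ ≤ t1 ^ (2 * K) * (N1 ^ K * v1) := mul_le_mul_of_nonneg_left h1 (by positivity)
      _ = N1 ^ K * t1 ^ (2 * K) * v1 := by ring
  have h3 : N1 ≤ 2 * N := by nlinarith
  have h4 : N1 ^ K ≤ (2 * N) ^ K := pow_le_pow_left₀ (by linarith) h3 K
  have h5 : N1 ^ K * t1 ^ (2 * K) * v ≤ 8 ^ K * (N ^ K * t ^ (2 * K) * v) := by
    calc N1 ^ K * t1 ^ (2 * K) * v ≤ (2 * N) ^ K * t1 ^ (2 * K) * v := by gcongr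
      _ = 8 ^ K * (N ^ K * t ^ (2 * K) * v) := by
        rw [ht1, mul_pow, mul_pow, pow_mul (2 : ℝ) 2 K]
        have : (8 : ℝ) ^ K = 2 ^ K * (2 ^ 2) ^ K := by
          rw [← mul_pow]; norm_num
        rw [this]
        ring
  linarith

/-- the choice of `nu` and `tau` -/
theorem prp_s2 {K : ℕ} (hK : 2 ≤ K) {C H : ℝ} (hC : 1 ≤ C) (hH : 0 ≤ H) :
    (C * Real.exp (C * H)) * (Real.exp (-C * H) / C) ^ (2 * K - 1) ≤ Real.exp (-H) / C := by
  have hC0 : 0 < C := by linarith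
  obtain ⟨j, hj⟩ : ∃ j, 2 * K - 1 = 3 + j := ⟨2 * K - 1 - 3, by omega⟩
  have hE : 0 < Real.exp (-C * H) := Real.exp_pos _
  have hE1 : Real.exp (-C * H) ≤ 1 := by
    rw [Real.exp_le_one_iff]
    nlinarith
  have hEH : Real.exp (-C * H) ≤ Real.exp (-H) := by
    rw [Real.exp_le_exp]
    nlinarith
  have hEE : Real.exp (C * H) * Real.exp (-C * H) = 1 := by
    rw [← Real.exp_add]
    simp
  set τ := Real.exp (-C * H) / C with hτ
  have hτ0 : 0 < τ := by positivity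
  have hτE : τ * C = Real.exp (-C * H) := by rw [hτ]; field_simp
  have hτ1 : τ ≤ 1 := by
    rw [hτ, div_le_one hC0]
    linarith
  have h1 : τ ^ (2 * K - 1) ≤ τ ^ 3 := pow_le_pow_of_le_one hτ0.le hτ1 (by omega)
  have h2 : (C * Real.exp (C * H)) * τ = 1 := by
    calc (C * Real.exp (C * H)) * τ = Real.exp (C * H) * (τ * C) := by ring
      _ = 1 := by rw [hτE, hEE]
  calc (C * Real.exp (C * H)) * τ ^ (2 * K - 1) ≤ (C * Real.exp (C * H)) * τ ^ 3 := by gcongr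
    _ = ((C * Real.exp (C * H)) * τ) * τ * τ := by ring
    _ = τ * τ := by rw [h2, one_mul]
    _ ≤ τ * 1 := by gcongr
    _ = Real.exp (-C * H) / C := by rw [mul_one, hτ]
    _ ≤ Real.exp (-H) / C := by gcongr

theorem prp_s3 {K k : ℕ} (hkK : k ≤ K) {P N0 t M H C C' g B vG S : ℝ} (hP : 0 < P) (hN : 0 < N0)
    (ht : 0 < t) (hM : 1 ≤ M) (htM : (2 * t) ^ 2 * M = 1) (hC : 1 ≤ C) (hH : 0 ≤ H) (hg : 1 ≤ g)
    (hB : 0 ≤ B) (hC1 : 2 * C + 1 ≤ C') (hC2 : 2 * g * C ^ 2 ≤ C')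
    (h1 : Real.exp (-H) ≤ g * ((P * N0) ^ K * t ^ (2 * K) * B))
    (h2 : P ^ k * B ≤ C * Real.exp (C * H) * vG)
    (h3 : Real.exp (-C * H) / C / 2 * vG ≤ S) :
    Real.exp (-C' * H) / C' * (M / N0) ^ K ≤ P ^ (K - k) * S := by
  have hC0 : 0 < C := by linarith
  have hC'0 : 0 < C' := by linarith
  have hF : 0 < Real.exp (-C * H) := Real.exp_pos _
  have hEE : Real.exp (C * H) * Real.exp (-C * H) = 1 := by
    rw [← Real.exp_add]
    simp
  have h5 : Real.exp (-C' * H) ≤ Real.exp (-C * H) ^ 2 * Real.exp (-H) := by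
    rw [sq, ← Real.exp_add, ← Real.exp_add, Real.exp_le_exp]
    nlinarith
  set F := Real.exp (-C * H) with hFd
  have a1 : P ^ k * B * (F / C) ≤ vG := by
    calc P ^ k * B * (F / C) ≤ C * Real.exp (C * H) * vG * (F / C) := by gcongr
      _ = (Real.exp (C * H) * F) * vG * (C / C) := by ring
      _ = vG := by rw [hEE, div_self hC0.ne']; ring
  have a3 : F ^ 2 / (2 * C ^ 2) * (P ^ K * B) ≤ P ^ (K - k) * S := by
    have hPK : P ^ K = P ^ (K - k) * P ^ k := by rw [← pow_add, Nat.sub_add_cancel hkK]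
    calc F ^ 2 / (2 * C ^ 2) * (P ^ K * B) = P ^ (K - k) * (F / C / 2 * (P ^ k * B * (F / C))) := by
          rw [hPK]
          field_simp
      _ ≤ P ^ (K - k) * (F / C / 2 * vG) := by gcongr
      _ ≤ P ^ (K - k) * S := by gcongr
  have a4 : Real.exp (-H) * (M / N0) ^ K ≤ g * (P ^ K * B) := by
    have h6 : (M / N0) ^ K * (N0 ^ K * t ^ (2 * K)) ≤ 1 := by
      have h7 : (M / N0) ^ K * (N0 ^ K * t ^ (2 * K)) = (M * t ^ 2) ^ K := by
        rw [div_pow, pow_mul, mul_pow]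
        field_simp
      rw [h7]
      refine pow_le_one₀ (by positivity) ?_
      nlinarith
    calc Real.exp (-H) * (M / N0) ^ K ≤ g * ((P * N0) ^ K * t ^ (2 * K) * B) * (M / N0) ^ K := by
          gcongr
      _ = g * (P ^ K * B) * ((M / N0) ^ K * (N0 ^ K * t ^ (2 * K))) := by
          rw [mul_pow]
          ring
      _ ≤ g * (P ^ K * B) * 1 := by gcongr
      _ = g * (P ^ K * B) := mul_one _
  have a5 : Real.exp (-C' * H) / C' ≤ F ^ 2 * Real.exp (-H) / (2 * g * C ^ 2) := by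
    gcongr
  have a6 : 0 < g := by linarith
  calc Real.exp (-C' * H) / C' * (M / N0) ^ K
      ≤ F ^ 2 * Real.exp (-H) / (2 * g * C ^ 2) * (M / N0) ^ K := by gcongr
    _ = F ^ 2 / (2 * C ^ 2) / g * (Real.exp (-H) * (M / N0) ^ K) := by field_simp
    _ ≤ F ^ 2 / (2 * C ^ 2) / g * (g * (P ^ K * B)) := by gcongr
    _ = F ^ 2 / (2 * C ^ 2) * (P ^ K * B) := by field_simp
    _ ≤ P ^ (K - k) * S := a3

/-! ## Fibres -/

theorem prp_mono {k : ℕ} {S : AddSubgroup (X k)} {W W' : Set (X k)} {B B' : ℝ} (h : Cnt S W B)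
    (hs : W' ⊆ W) (hB : B ≤ B') : Cnt S W' B' :=
  fun Y h1 h2 => (h Y (fun y hy => hs (h1 y hy)) h2).trans hB

theorem prp_nu (hNWT : T_NWT) {k p N : ℕ} {t lam : ℝ} {A : Set (X k)} (hk : 1 ≤ k) (hp : p.Prime)
    (hkp : k < p) (hN : 1 ≤ N) (ht : 0 < t) (hlam : 0 ≤ lam) (hA : ∀ a ∈ A, t ≤ ‖u (p * N) a‖)
    (hV : ∀ a ∈ A, VD p N a < lam * t ^ 2) :
    Cnt (H k p 1) A ((Nat.factorial k : ℝ) * lam ^ k) := by
  intro Y h1 h2
  rcases Y.eq_empty_or_nonempty with rfl | ⟨a, ha⟩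
  · simp only [card_empty, Nat.cast_zero]
    positivity
  · have h3 := hNWT k p N t a Y hk hp hkp hN ht (fun y hy => ⟨h2 y hy a ha, hA y (h1 y hy)⟩)
    have h4 : VD p N a / t ^ 2 ≤ lam := by
      rw [div_le_iff₀ (by positivity)]
      exact (hV a (h1 a ha)).le
    have h5 : 0 ≤ VD p N a / t ^ 2 := by
      have : 0 ≤ VD p N a := by unfold VD; positivity
      positivity
    refine h3.trans ?_
    gcongr

/-! ## The statement -/

theorem prp_vol {k : ℕ} {S T U : Set (X k)} (h : S ⊆ T ∪ U) :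
    volume.real S ≤ volume.real T + volume.real U :=
  (measureReal_mono h).trans (measureReal_union_le _ _)

theorem pf_PRP (hWT : L_WT) (hFB : L_FB) (hPT : L_PT) (hMVV : T_MVV) (hRTN : T_RTN)
    (hNWT : T_NWT) (hGMP : T_GMP) : T_PRP := by
  intro k hk
  obtain ⟨CA, hCA, hFB⟩ := hFB k hk
  obtain ⟨dF, hdF, hFB⟩ := hFB (1 / 100) (by norm_num) (by norm_num)
  obtain ⟨CP, hCP, hPT⟩ := hPT k hk
  obtain ⟨CM, hCM, hMVV⟩ := hMVV k hk
  obtain ⟨CR, hCR, hRTN⟩ := hRTN k hk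
  have hKk : k + 1 ≤ KN k := prp_KN hk
  obtain ⟨g, hgd, hg⟩ : ∃ g : ℝ, g = 8 ^ KN k ∧ 1 ≤ g := ⟨_, rfl, one_le_pow₀ (by norm_num)⟩
  obtain ⟨C1, hC1d, hC1⟩ : ∃ C1 : ℝ, C1 = 32 * g * CM ∧ 1 ≤ C1 := ⟨_, rfl, prp_h5 hg hCM⟩
  have hk0 : (0 : ℝ) ≤ k := Nat.cast_nonneg k
  have hgR : 0 ≤ 32 * g * CR := by positivity
  have hq2 : 0 ≤ 32 * g * CM := by positivity
  obtain ⟨C, hC8, hCk, hCf, hCRC⟩ := prp_C k hk0
    (show 0 ≤ (Nat.factorial k : ℝ) * C1 ^ k by positivity) hgR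
  obtain ⟨C', hC'1, hC'2, hC'3, hC'4, hC'5, hC'6, hC'7⟩ := prp_C' k hk0
    (show 0 ≤ 2 * CP + 2 by linarith) (show 0 ≤ 4 * g by linarith) hq2 hgR
    (show 0 ≤ 2 * C * k by positivity) (show 0 ≤ 2 * C + 1 by linarith)
    (show 0 ≤ 16 * g * C ^ 2 by positivity)
  have hC'0 : 0 < C' := by linarith
  have hlog : 0 ≤ Real.log (1 / (1 / 100 : ℝ)) := Real.log_nonneg (by norm_num)
  refine ⟨CA * (1 + Real.log (1 / (1 / 100 : ℝ))), min dF (1 / 100), C, C', by positivity,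
    lt_min hdF (by norm_num), min_le_right _ _, by linarith, by linarith, fun Dm => ?_⟩
  obtain ⟨q₀, hFB⟩ := hFB (Dm + 1)
  refine ⟨max q₀ (k + 4), ?_⟩
  intro p N₀ N₁ M H w hp0 hp hN₀ hM hH hw hN1 hNw hC'w hC'p hD1 hD2 hv
  have hpq : q₀ ≤ p := le_trans (le_max_left _ _) hp0
  have hpk : k + 4 ≤ p := le_trans (le_max_right _ _) hp0
  have hkp : k < p := by omega
  have hk1 : 1 ≤ k := by omega
  have hp4 : (4 : ℝ) ≤ p := by
    have : 4 ≤ p := by omega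
    exact_mod_cast this
  have hP1 : (1 : ℝ) ≤ p := by linarith
  have hP0 : (0 : ℝ) < p := by linarith
  have hN00 : (0 : ℝ) < N₀ := by exact_mod_cast hN₀
  have hM0 : 0 < M := by linarith
  have hpN : 1 ≤ p * N₀ := Nat.mul_pos (by omega) hN₀
  set t1 : ℝ := M ^ (-(1 / 2 : ℝ)) with ht1d
  set t : ℝ := t1 / 2 with htd
  have ht10 : 0 < t1 := Real.rpow_pos_of_pos hM0 _
  have ht0 : 0 < t := by positivity
  have ht1t : t1 = 2 * t := by rw [htd]; ring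
  have ht1M : t1 ^ 2 * M = 1 := prp_t hM
  have ht2M : (2 * t) ^ 2 * M = 1 := by rw [← ht1t]; exact ht1M
  set E : ℝ := Real.exp (-H) with hEd
  have hE0 : 0 < E := Real.exp_pos _
  have hE1 : E ≤ 1 := by
    rw [hEd, Real.exp_le_one_iff]
    linarith
  -- the powers of `p`
  set x : ℝ := (p : ℝ) ^ (-min dF (1 / 100 : ℝ)) with hxd
  have hx0 : 0 < x := Real.rpow_pos_of_pos hP0 _
  have hxE : C' * x ≤ E := by
    refine hC'p.trans ?_
    rw [hEd, Real.exp_le_exp]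
    exact prp_h1 (by linarith) hH
  have hxC : C' * x ≤ Real.exp (-C * H) := by
    refine hC'p.trans ?_
    rw [Real.exp_le_exp]
    exact prp_h2 (by linarith) hH
  have hxF : (p : ℝ) ^ (-dF) ≤ x :=
    Real.rpow_le_rpow_of_exponent_le hP1 (by linarith [min_le_left dF (1 / 100 : ℝ)])
  have hx1 : 1 / (p : ℝ) ≤ x := by
    rw [one_div, ← Real.rpow_neg_one]
    exact Real.rpow_le_rpow_of_exponent_le hP1 (by linarith [min_le_right dF (1 / 100 : ℝ)])
  set m : ℝ := (p : ℝ) ^ (1 / 100 : ℝ) with hmd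
  have hm1 : 1 ≤ m := Real.one_le_rpow hP1 (by norm_num)
  have hm8 : m ^ 8 ≤ (p : ℝ) := by
    rw [hmd, ← Real.rpow_natCast, ← Real.rpow_mul hP0.le]
    calc (p : ℝ) ^ ((1 / 100 : ℝ) * ((8 : ℕ) : ℝ)) ≤ (p : ℝ) ^ (1 : ℝ) :=
          Real.rpow_le_rpow_of_exponent_le hP1 (by norm_num)
      _ = p := Real.rpow_one _
  have hmp : m / p ≤ x := by
    rw [hmd, div_eq_mul_inv, ← Real.rpow_neg_one, ← Real.rpow_add hP0]
    refine Real.rpow_le_rpow_of_exponent_le hP1 ?_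
    have := min_le_right dF (1 / 100 : ℝ)
    linarith
  -- step 1: the alive points of level `p N₀`
  have s1 : E ≤ 2 * g * (((p : ℝ) * N₀) ^ KN k * t ^ (2 * KN k) *
      volume.real {a : X k | t ≤ ‖u (p * N₀) a‖}) := by
    rw [hgd]
    have h1 := hPT N₁ (p * N₀) t1 w hpN hN1 ht10 hw (by push_cast; exact hNw)
    refine prp_s1 (M := M) (w := w) (N1 := (N₁ : ℝ)) (t1 := t1) (CP := CP)
      (v1 := volume.real {a : X k | t1 ≤ ‖u N₁ a‖}) (by omega) hE1 hw ?_ hCP (by positivity) ?_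
      hNw measureReal_nonneg ht0 ht1t ht1M hv h1
    · exact (mul_le_mul_of_nonneg_right hC'1 hw).trans hC'w
    · exact_mod_cast hN1
  -- step 2: few alive points in a coset of `H k p k`
  have hNt : ((p * N₀ : ℕ) : ℝ) * t ^ 2 = p * (N₀ / M) / 4 := by
    have h4 : t ^ 2 = 1 / (4 * M) := by
      rw [eq_div_iff (by positivity)]
      linarith
    rw [h4]
    push_cast
    field_simp
  have hNM : 0 ≤ (N₀ : ℝ) / M := by positivity
  obtain ⟨E0, hE0m, hE0v, hE0c⟩ := hFB p (p * N₀) t hpq hp hpN ht0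
    (by rw [hNt]; exact prp_h3 hD1 hNM hp4)
    (by
      rw [hNt, Real.rpow_add hP0, Real.rpow_one]
      exact prp_h4 hD2 hNM hP0.le)
  rw [Nat.cast_mul] at hE0v
  set Z : ℝ := ((p : ℝ) * N₀) ^ KN k * t ^ (2 * KN k) with hZ
  have hZ0 : 0 < Z := by positivity
  set A0 : Set (X k) := {a : X k | t ≤ ‖u (p * N₀) a‖} \ E0 with hA0
  have hA0m : MeasurableSet A0 := (prp_mu _ _).diff hE0m
  have hA0t : ∀ a ∈ A0, t ≤ ‖u (p * N₀) a‖ := fun a ha => ha.1
  have s2 : E ≤ 4 * g * (Z * volume.real A0) := by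
    have h1 : volume.real {a : X k | t ≤ ‖u (p * N₀) a‖} ≤ volume.real A0 + volume.real E0 :=
      prp_vol (fun a ha => (em (a ∈ E0)).elim Or.inr fun h => Or.inl ⟨ha, h⟩)
    refine prp_n2 hg hZ0.le s1 h1 (hE0v.trans hxF) (le_trans ?_ hxE)
    exact mul_le_mul_of_nonneg_right hC'2 hx0.le
  -- step 3: lines with a large mean square
  set lam : ℝ := C1 * Real.exp H with hlam
  have heH : 1 ≤ Real.exp H := by
    rw [Real.one_le_exp_iff]
    exact hH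
  have hlam1 : 1 ≤ lam := one_le_mul_of_one_le_of_one_le hC1 heH
  have h3 := hMVV p N₀ t m lam A0 hp hkp hN₀ ht0 hm1 hm8 hlam1 hA0m hA0t hE0c
  set A : Set (X k) := {a : X k | a ∈ A0 ∧ VD p N₀ a < lam * t ^ 2} with hA
  have hAm : MeasurableSet A :=
    hA0m.inter (isOpen_lt (prp_cVD p N₀) continuous_const).measurableSet
  have hAA : A ⊆ A0 := fun a ha => ha.1
  have hAt : ∀ a ∈ A, t ≤ ‖u (p * N₀) a‖ := fun a ha => hA0t a ha.1
  have s3 : 3 / 4 * E ≤ 4 * g * (Z * volume.real A) := by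
    have h1 : volume.real A0 ≤ volume.real A +
        volume.real {a : X k | a ∈ A0 ∧ lam * t ^ 2 ≤ VD p N₀ a} :=
      prp_vol (fun a ha => (lt_or_ge (VD p N₀ a) (lam * t ^ 2)).elim (fun h => Or.inl ⟨ha, h⟩)
        fun h => Or.inr ⟨ha, h⟩)
    have h2 : 1 / lam ^ (KN k - k) ≤ E / C1 := by
      have h5 : lam ≤ lam ^ (KN k - k) := by
        calc lam = lam ^ 1 := (pow_one _).symm
          _ ≤ lam ^ (KN k - k) := pow_le_pow_right₀ hlam1 (by omega)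
      have h6 : E / C1 = 1 / lam := by
        rw [hlam, hEd, Real.exp_neg]
        field_simp
      rw [h6]
      exact one_div_le_one_div_of_le (by linarith) h5
    have h4 : E - E / 4 ≤ 4 * g * (Z * volume.real A) := by
      refine prp_n3 hg hZ0.le s2 h1 h3 (prp_n4 ?_ ?_)
      · rw [← hC1d]
        rwa [le_div_iff₀' (by linarith)] at h2
      · calc 32 * g * CM * (1 / (p : ℝ)) ≤ 32 * g * CM * x := mul_le_mul_of_nonneg_left hx1 hq2
          _ ≤ C' * x := mul_le_mul_of_nonneg_right hC'3 hx0.le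
          _ ≤ E := hxE
    linarith
  -- step 4: few points of `A` in a coset of `H k p 1`
  have hAc : Cnt (Pool.Agent.H24.CL.H k p k) A m := prp_mono hE0c hAA le_rfl
  have hA1 : Cnt (Pool.Agent.H24.CL.H k p 1) A (C * Real.exp (C * H)) := by
    refine prp_mono (prp_nu hNWT hk1 hp hkp hN₀ ht0 (by linarith) hAt fun a ha => ha.2)
      subset_rfl ?_
    rw [hlam, mul_pow, ← mul_assoc, ← Real.exp_nat_mul]
    gcongr
  -- step 5: retention
  set ν : ℝ := C * Real.exp (C * H) with hν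
  set τ : ℝ := Real.exp (-C * H) / C with hτ
  have hC0 : 0 < C := by linarith
  have hν1 : 1 ≤ ν := by
    refine one_le_mul_of_one_le_of_one_le (by linarith) ?_
    rw [Real.one_le_exp_iff]
    positivity
  have hτ0 : 0 < τ := div_pos (Real.exp_pos _) hC0
  have hτ8 : τ ≤ 1 / 8 := by
    rw [hτ, div_le_div_iff₀ hC0 (by norm_num)]
    have : Real.exp (-C * H) ≤ 1 := by
      rw [Real.exp_le_one_iff]
      linarith [prp_h1 (show 1 ≤ C by linarith) hH]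
    linarith
  have h5 := hRTN p N₀ t m ν τ A hp hkp hN₀ ht0 hm1 hm8 hν1 hτ0 hτ8 hAm hAt hAc hA1
  have ht4 : t / 4 = t1 / 8 := by rw [htd]; ring
  rw [ht4] at h5
  set V : Set (X k) := {v : X k | t1 / 8 ≤ ‖u N₀ v‖} with hV
  have hVm : MeasurableSet V := prp_mu _ _
  have s5 : E / 2 ≤ 4 * g * (Z * volume.real {a : X k | a ∈ A ∧ τ ≤ hd p V a}) := by
    have h1 : volume.real A ≤ volume.real {a : X k | a ∈ A ∧ τ ≤ hd p V a} +
        volume.real {a : X k | a ∈ A ∧ hd p V a < τ} :=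
      prp_vol (fun a ha => (lt_or_ge (hd p V a) τ).elim (fun h => Or.inr ⟨ha, h⟩)
        fun h => Or.inl ⟨ha, h⟩)
    have h2 : ν * τ ^ (2 * KN k - 1) ≤ E / C := prp_s2 (by omega) (by linarith) hH
    have h4 : 3 / 4 * E - E / 4 ≤
        4 * g * (Z * volume.real {a : X k | a ∈ A ∧ τ ≤ hd p V a}) := by
      refine prp_n3 hg hZ0.le s3 h1 h5 (prp_n4 ?_ ?_)
      · rw [le_div_iff₀' hC0] at h2
        refine le_trans (mul_le_mul_of_nonneg_right hCRC ?_) h2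
        positivity
      · calc 32 * g * CR * (1 / (p : ℝ)) ≤ 32 * g * CR * x := mul_le_mul_of_nonneg_left hx1 hgR
          _ ≤ C' * x := mul_le_mul_of_nonneg_right hC'4 hx0.le
          _ ≤ E := hxE
    linarith
  -- steps 6 and 7: the good lines
  obtain ⟨-, -, -, -, g5, g6⟩ := hGMP k p hk1 hp hkp A V τ ν m hAm hVm hτ0 hν1 hm1 hAc hA1
  refine ⟨A, τ, hAm, ?_, hAc, hA1, rfl, ?_⟩
  · exact hAt
  refine prp_s3 (g := 8 * g) (t := t) (C := C) (N0 := (N₀ : ℝ))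
    (B := volume.real {a : X k | a ∈ A ∧ τ ≤ hd p V a}) (vG := volume.real (GdL k p A V τ))
    (by omega) hP0 hN00 ht0 hM ht2M (by linarith) hH (by linarith) measureReal_nonneg hC'6
    (by linarith) ?_ g5 (le_trans ?_ g6)
  · rw [← hEd, ← hZ]
    linarith
  · rw [← hτ]
    have h1 : (k : ℝ) * m / p ≤ τ / 2 := by
      rw [mul_div_assoc]
      calc (k : ℝ) * (m / p) ≤ k * x := by gcongr
        _ ≤ τ / 2 := by
          rw [hτ, div_div, le_div_iff₀ (by positivity)]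
          calc (k : ℝ) * x * (C * 2) = 2 * C * k * x := by ring
            _ ≤ C' * x := by gcongr
            _ ≤ _ := hxC
    have h2 : τ / 2 ≤ τ - k * m / p := by linarith
    exact mul_le_mul_of_nonneg_right h2 measureReal_nonneg

end Pool.Agent.H78.EST
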